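import Pool.Agent.W343.FZH.C

/-! The core argument: the alternative for connected sets outside the periodic part. -/

set_option autoImplicit false

open Metric Filter Topology Set

namespace Pool.Agent.W343.FZH

open Pool.Agent.W681.FZ

/-- the union of the periodic spectra -/
def Per : Set ℂ := {z : ℂ | ∃ b : ℤ → ℂ, (∀ n, b n = 1 ∨ b n = -1) ∧
  (∃ p : ℕ, 0 < p ∧ ∀ n : ℤ, b (n + (p : ℤ)) = b n) ∧ ¬ Bij z b}

lemma Per_subset : Per ⊆ Sig := by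
  rintro z ⟨b, hb, _, h⟩
  exact ⟨b, hb, h⟩

lemma phi_three (c : ℕ → ℂ) (hc : PM c) (n : ℕ) :
    1 ≤ ‖phi 3 c n‖ ∧ 2 * ‖phi 3 c n‖ ≤ ‖phi 3 c (n+1)‖ := by
  induction n with
  | zero => constructor <;> simp <;> norm_num
  | succ n ih =>
    obtain ⟨h1, h2⟩ := ih
    refine ⟨by linarith, ?_⟩
    rw [phi_succ]
    have h3 : ‖(3 : ℂ) * phi 3 c (n+1)‖ - ‖c n * phi 3 c n‖ ≤
        ‖3 * phi 3 c (n+1) - c n * phi 3 c n‖ := norm_sub_norm_le _ _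
    rw [norm_mul, norm_mul, hc.norm n] at h3
    have h4 : ‖(3 : ℂ)‖ = 3 := by norm_num
    rw [h4] at h3
    linarith

lemma open_at (c : ℕ → ℂ) (hc : PM c) (N : ℕ) (w : ℂ) :
    𝓝 (w * phi w c (N+1)) ≤ map (fun z : ℂ => z * phi z c (N+1)) (𝓝 w) := by
  have hdiff : Differentiable ℂ (fun z : ℂ => z * phi z c (N+1)) :=
    differentiable_id.mul (phi_diff c (N+1))
  have han : AnalyticOnNhd ℂ (fun z : ℂ => z * phi z c (N+1)) univ :=
    fun z _ => hdiff.analyticAt z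
  rcases (han w (mem_univ _)).eventually_constant_or_nhds_le_map_nhds with h | h
  · exfalso
    have h2 := han.eqOn_of_preconnected_of_eventuallyEq (g := fun _ => w * phi w c (N+1))
      (fun z _ => analyticAt_const) isPreconnected_univ (mem_univ w) h
    have h3 := h2 (mem_univ (3 : ℂ))
    have h0 := h2 (mem_univ (0 : ℂ))
    simp only [zero_mul] at h0 h3
    rw [← h0] at h3
    have h4 := (phi_three c hc (N+1)).1
    rcases mul_eq_zero.1 h3 with h5 | h5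
    · norm_num at h5
    · rw [h5, norm_zero] at h4
      linarith
  · exact h

/-- the lower bound outside the periodic part -/
lemma one_le_out (hC : PartC) (hD : PartD) (hE : PartE) (w : ℂ) (hw : w ∉ closure Per)
    (c : ℕ → ℂ) (hc : PM c) (N : ℕ) : 1 ≤ ‖w * phi w c (N+1)‖ := by
  by_contra hlt
  push Not at hlt
  have hU : (closure Per)ᶜ ∈ 𝓝 w := isClosed_closure.isOpen_compl.mem_nhds hw
  have h1 : (fun z : ℂ => z * phi z c (N+1)) '' (closure Per)ᶜ ∈ 𝓝 (w * phi w c (N+1)) :=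
    open_at c hc N w (image_mem_map hU)
  obtain ⟨ε, hε, hsub⟩ := Metric.mem_nhds_iff.1 h1
  obtain ⟨l, hl, b, M, hb, hz⟩ := hD _ hlt ε hε
  obtain ⟨z2, hz2, rfl⟩ := hsub (by rw [mem_ball, dist_eq_norm]; exact hl : l ∈ ball _ ε)
  obtain ⟨B, hB, hBz⟩ := hC b c hb hc N (M+1)
  have h3 := hBz z2
  simp only at hz
  rw [hz, mul_zero] at h3
  have hpos : 2 ≤ (N+2)*(M+1+1) := by nlinarith [Nat.zero_le N, Nat.zero_le M, Nat.zero_le (N*M)]
  have h4 : (N+2)*(M+1+1) - 1 = ((N+2)*(M+1+1) - 2) + 1 := by omega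
  rw [h4] at h3
  exact hz2 (subset_closure (hE z2 ⟨B, _, hB, h3⟩))

/-- the alternative -/
theorem alt (hC : PartC) (hD : PartD) (hE : PartE) (C : Set ℂ) (hCc : IsPreconnected C)
    (hdis : ∀ z ∈ C, z ∉ closure Per) (hne : ∃ z ∈ C, z ∉ Sig) : ∀ z ∈ C, z ∉ Sig := by
  have hopen : IsOpen Sigᶜ := Sig_closed.isOpen_compl
  obtain ⟨z1, hz1, hz1'⟩ := hne
  refine hCc.subset_of_closure_inter_subset hopen ⟨z1, hz1, hz1'⟩ ?_
  rintro z0 ⟨hcl, hz0⟩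
  have hU : (closure Per)ᶜ ∈ 𝓝 z0 := isClosed_closure.isOpen_compl.mem_nhds (hdis z0 hz0)
  obtain ⟨r0, hr0, hball⟩ := Metric.mem_nhds_iff.1 hU
  have hA : ∀ z ∈ ball z0 r0, ∀ c : ℕ → ℂ, PM c → ∀ N, 1 ≤ ‖z * phi z c (N+1)‖ :=
    fun z hz c hc N => one_le_out hC hD hE z (hball hz) c hc N
  obtain ⟨zs, hzs, hd⟩ := Metric.mem_closure_iff.1 hcl (r0/16) (by positivity)
  obtain ⟨δ, hδ, hG⟩ := not_mem_Sig.1 hzs
  have hd' : ‖z0 - zs‖ ≤ r0 / 16 := by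
    rw [← dist_eq_norm]
    exact hd.le
  obtain ⟨C', q, hC', hq, hq1, H⟩ := transfer hr0 hd' hA hδ hG
  exact not_mem_Sig.2 (FinGood_of_decay hC' hq hq1 H)

lemma large_sum (z : ℂ) (b X : ℕ → ℂ) (hb : PM b) (hz : 2 < ‖z‖) (m : ℕ) :
    (‖z‖ - 2) * ∑ k ∈ Finset.range (m+1), ‖X k‖ ^ 2 + ‖X m‖ ^ 2 / 2 - ‖X (m+1)‖ ^ 2 / 2 ≤
      ∑ k ∈ Finset.range (m+1), ‖X k‖ * ‖res z b X k‖ := by
  induction m with
  | zero =>
    have h1 : ‖z * X 0‖ ≤ ‖res z b X 0‖ + ‖X 1‖ := by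
      have e : z * X 0 = X 1 - res z b X 0 := by simp only [res]; ring
      rw [e]
      refine (norm_sub_le _ _).trans ?_
      linarith
    rw [norm_mul] at h1
    simp only [zero_add, Finset.sum_range_one]
    have h2 := norm_nonneg (X 0)
    have h3 : ‖X 0‖ * (‖z‖ * ‖X 0‖) ≤ ‖X 0‖ * (‖res z b X 0‖ + ‖X 1‖) :=
      mul_le_mul_of_nonneg_left h1 h2
    nlinarith [sq_nonneg (‖X 0‖ - ‖X 1‖)]
  | succ m ih =>
    rw [Finset.sum_range_succ, Finset.sum_range_succ (fun k => ‖X k‖ * ‖res z b X k‖)]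
    have h1 : ‖z * X (m+1)‖ ≤ ‖res z b X (m+1)‖ + ‖X m‖ + ‖X (m+2)‖ := by
      have e : z * X (m+1) = b m * X m + X (m+2) - res z b X (m+1) := by simp only [res]; ring
      rw [e]
      refine (norm_sub_le _ _).trans ?_
      have := norm_add_le (b m * X m) (X (m+2))
      rw [norm_mul, hb.norm m, one_mul] at this
      linarith
    rw [norm_mul] at h1
    have h2 := norm_nonneg (X (m+1))
    have h3 : ‖X (m+1)‖ * (‖z‖ * ‖X (m+1)‖) ≤
        ‖X (m+1)‖ * (‖res z b X (m+1)‖ + ‖X m‖ + ‖X (m+2)‖) :=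
      mul_le_mul_of_nonneg_left h1 h2
    have h4 := sq_nonneg (‖X (m+1)‖ - ‖X m‖)
    have h5 := sq_nonneg (‖X (m+1)‖ - ‖X (m+2)‖)
    rw [show m + 1 + 1 = m + 2 by ring]
    nlinarith

/-- Large points are good. -/
theorem large (z : ℂ) (hz : 2 < ‖z‖) : z ∉ Sig := by
  refine not_mem_Sig.2 ⟨‖z‖ - 2, by linarith, ?_⟩
  intro n b X hb hX
  cases n with
  | zero => simp
  | succ m =>
    have h1 := large_sum z b X hb hz m
    rw [hX, norm_zero] at h1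
    have hd : 0 < ‖z‖ - 2 := by linarith
    have h2 : ∀ k, ‖X k‖ * ‖res z b X k‖ ≤
        (‖z‖ - 2) / 2 * ‖X k‖ ^ 2 + 1 / (2 * (‖z‖ - 2)) * ‖res z b X k‖ ^ 2 := by
      intro k
      have h3 : (‖z‖ - 2) / 2 * ‖X k‖ ^ 2 + 1 / (2 * (‖z‖ - 2)) * ‖res z b X k‖ ^ 2 -
          ‖X k‖ * ‖res z b X k‖ =
          ((‖z‖ - 2) * ‖X k‖ - ‖res z b X k‖) ^ 2 / (2 * (‖z‖ - 2)) := by
        field_simp
        ring
      have h4 : 0 ≤ ((‖z‖ - 2) * ‖X k‖ - ‖res z b X k‖) ^ 2 / (2 * (‖z‖ - 2)) := by positivity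
      linarith
    have h3 : ∑ k ∈ Finset.range (m+1), ‖X k‖ * ‖res z b X k‖ ≤
        (‖z‖ - 2) / 2 * ∑ k ∈ Finset.range (m+1), ‖X k‖ ^ 2 +
        1 / (2 * (‖z‖ - 2)) * ∑ k ∈ Finset.range (m+1), ‖res z b X k‖ ^ 2 := by
      rw [Finset.mul_sum, Finset.mul_sum, ← Finset.sum_add_distrib]
      exact Finset.sum_le_sum (fun k _ => h2 k)
    set S := ∑ k ∈ Finset.range (m+1), ‖X k‖ ^ 2 with hS
    set R := ∑ k ∈ Finset.range (m+1), ‖res z b X k‖ ^ 2 with hR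
    have h4 : (‖z‖ - 2) / 2 * S ≤ 1 / (2 * (‖z‖ - 2)) * R := by
      have h5 : 0 ≤ ‖X m‖ ^ 2 / 2 := by positivity
      have h6 : (‖z‖ - 2) * S ≤ (‖z‖ - 2) / 2 * S + 1 / (2 * (‖z‖ - 2)) * R := by
        nlinarith
      linarith
    have h7 : 2 * (‖z‖ - 2) * ((‖z‖ - 2) / 2 * S) ≤
        2 * (‖z‖ - 2) * (1 / (2 * (‖z‖ - 2)) * R) :=
      mul_le_mul_of_nonneg_left h4 (by positivity)
    have h8 : 2 * (‖z‖ - 2) * (1 / (2 * (‖z‖ - 2)) * R) = R := by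
      field_simp
    nlinarith

end Pool.Agent.W343.FZH
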