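import Pool.Agent.W343.FZH.Spec

/-! Part C: composition of window polynomials. -/

set_option autoImplicit false

open Finset

namespace Pool.Agent.W343.FZH

open Pool.Agent.W681.FZ

/-- signs next to the special sites -/
noncomputable def sgb (b : ℕ → ℂ) (Pi : ℂ) : ℕ → ℂ
  | 0 => 1
  | (j+1) => - b j * sgb b Pi j * Pi

/-- the glued link sequence, for a general outer sequence -/
noncomputable def BBb (b c : ℕ → ℂ) (N : ℕ) (Pi : ℂ) : ℕ → ℂ := fun k =>
  if k % (N+2) = 0 then sgb b Pi (k / (N+2))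
  else if k % (N+2) = N + 1 then - sgb b Pi (k / (N+2) + 1)
  else cj c N (k / (N+2)) (k % (N+2) - 1)

lemma sgb_pm {b : ℕ → ℂ} (hb : PM b) {Pi : ℂ} (hP : Pi = 1 ∨ Pi = -1) (j : ℕ) :
    sgb b Pi j = 1 ∨ sgb b Pi j = -1 := by
  induction j with
  | zero => simp [sgb]
  | succ j ih =>
    simp only [sgb]
    exact mul_pm (mul_pm (neg_pm (hb j)) ih) hP

lemma BBb_pm {b c : ℕ → ℂ} (hb : PM b) (hc : PM c) (N : ℕ) {Pi : ℂ} (hP : Pi = 1 ∨ Pi = -1) :
    PM (BBb b c N Pi) := by
  intro k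
  unfold BBb
  split_ifs
  · exact sgb_pm hb hP _
  · exact neg_pm (sgb_pm hb hP _)
  · exact cj_pm hc _ _ _

lemma BBb_at0 (b c : ℕ → ℂ) (N : ℕ) (Pi : ℂ) (j : ℕ) :
    BBb b c N Pi ((N+2)*j) = sgb b Pi j := by
  have h1 : (N+2)*j % (N+2) = 0 := Nat.mul_mod_right _ _
  have h2 : (N+2)*j / (N+2) = j := Nat.mul_div_cancel_left _ (by omega)
  simp only [BBb, if_pos h1, h2]

lemma BBb_at1 (b c : ℕ → ℂ) (N : ℕ) (Pi : ℂ) (j : ℕ) :
    BBb b c N Pi ((N+2)*j+1+N) = - sgb b Pi (j+1) := by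
  have h1 : ((N+2)*j+1+N) % (N+2) = N+1 := by
    rw [show (N+2)*j+1+N = (N+1) + (N+2)*j by ring, Nat.add_mul_mod_self_left]
    exact Nat.mod_eq_of_lt (by omega)
  have h2 : ((N+2)*j+1+N) / (N+2) = j := by
    rw [show (N+2)*j+1+N = (N+1) + (N+2)*j by ring, Nat.add_mul_div_left _ _ (by omega),
      Nat.div_eq_of_lt (by omega)]
    omega
  have h3 : ¬ (N + 1 = 0) := by omega
  simp only [BBb, h1, h2, if_neg h3, if_true]

lemma BBb_at2 (b c : ℕ → ℂ) (N : ℕ) (Pi : ℂ) (j i : ℕ) (hi : i < N) :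
    BBb b c N Pi ((N+2)*j+1+i) = cj c N j i := by
  have h1 : ((N+2)*j+1+i) % (N+2) = i+1 := by
    rw [show (N+2)*j+1+i = (i+1) + (N+2)*j by ring, Nat.add_mul_mod_self_left]
    exact Nat.mod_eq_of_lt (by omega)
  have h2 : ((N+2)*j+1+i) / (N+2) = j := by
    rw [show (N+2)*j+1+i = (i+1) + (N+2)*j by ring, Nat.add_mul_div_left _ _ (by omega),
      Nat.div_eq_of_lt (by omega)]
    omega
  have h3 : ¬ (i + 1 = 0) := by omega
  have h4 : ¬ (i + 1 = N + 1) := by omega
  simp only [BBb, h1, h2, if_neg h3, if_neg h4]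
  rfl

/-- The solution of the outer recursion. -/
noncomputable def VV (b : ℕ → ℂ) (μ : ℂ) : ℕ → ℂ
  | 0 => 0
  | (n+1) => phi μ b n

lemma VV_succ (b : ℕ → ℂ) (μ : ℂ) (n : ℕ) :
    VV b μ (n+3) = μ * VV b μ (n+2) - b n * VV b μ (n+1) := by
  simp only [VV]
  rw [phi_succ]

/-- values at the special sites -/
lemma special_gen (z : ℂ) (b c : ℕ → ℂ) (b' : ℕ → ℂ) (hb' : PM b') (hbb : ∀ n, b' (n+1) = b n)
    (hc : PM c) (N : ℕ) (j : ℕ) :
    xs z (BBb b' c N (∏ i ∈ range N, c i)) ((N+2)*j)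
      = phi z c (N+1) * VV b (z * phi z c (N+1)) j := by
  set Pi : ℂ := ∏ i ∈ range N, c i with hPi
  have hPpm : Pi = 1 ∨ Pi = -1 := prod_pm hc N
  set B := BBb b' c N Pi with hB
  have hD : ∀ j, D z B ((N+2)*j+1) (N+1) = phi z c (N+1) := by
    intro j
    induction j with
    | zero =>
      show phi z (sh ((N+2)*0+1) B) (N+1) = _
      apply phi_congr
      intro i hi
      simp only [sh]
      rw [hB, BBb_at2 b' c N Pi 0 i (by omega)]
      simp [cj]
    | succ j ih =>
      rw [← ih]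
      have h1 := (blocks_rev z B ((N+2)*j) ((N+2)*(j+1)) N (fun i hi => by
        rw [hB, BBb_at2 b' c N Pi (j+1) i hi, BBb_at2 b' c N Pi j (N-1-i) (by omega),
          cj_succ c N j i hi])).1
      exact h1
  have hprod : ∀ j, ∏ i ∈ range N, B ((N+2)*j+1+i) = Pi := by
    intro j
    rw [hPi, ← prod_cj c N j]
    apply prod_congr rfl
    intro i hi
    rw [hB, BBb_at2 b' c N Pi j i (mem_range.1 hi)]
  have hrec := xs_rec z B
  induction j using Nat.strong_induction_on with
  | _ j ih =>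
    match j, ih with
    | 0, _ => simp [xs, VV]
    | 1, _ =>
      have h1 := sol_formula z B (xs z B) hrec 0 N
      rw [show 0 + 2 + N = (N+2)*1 by ring] at h1
      rw [h1]
      have h2 := hD 0
      rw [Nat.mul_zero] at h2
      rw [h2]
      simp [xs, VV]
    | (j+2), ih =>
      have h0 := ih j (by omega)
      have h1 := ih (j+1) (by omega)
      have h2 := decim hrec ((N+2)*j) N
        (fun i hi => by
          rw [show (N+2)*j + (N+2) + 1 + i = (N+2)*(j+1)+1+i by ring, hB,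
            BBb_at2 b' c N Pi (j+1) i hi, BBb_at2 b' c N Pi j (N-1-i) (by omega),
            cj_succ c N j i hi])
        (by
          rw [show (N+2)*j + (N+2) = (N+2)*(j+1) by ring, hB, BBb_at1, BBb_at0]
          ring)
      rw [show (N+2)*j + (N+2) + (N+2) = (N+2)*(j+2) by ring,
        show (N+2)*j + (N+2) = (N+2)*(j+1) by ring, hD, hprod, h0, h1, hB, BBb_at1, BBb_at0] at h2
      have e1 : sgb b' Pi (j+1) * sgb b' Pi j * Pi = - b' j := by
        have e2 : sgb b' Pi j * sgb b' Pi j = 1 := by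
          rcases sgb_pm hb' hPpm j with h | h <;> simp [h]
        have e3 : Pi * Pi = 1 := by
          rcases hPpm with h | h <;> simp [h]
        simp only [sgb]
        linear_combination (-(b' j)) * Pi * Pi * e2 - (b' j) * e3
      rw [h2]
      cases j with
      | zero =>
        simp [VV]
        ring
      | succ j =>
        rw [show j + 1 + 2 = j + 3 by ring, show j + 1 + 1 = j + 2 by ring, VV_succ]
        rw [show j + 1 + 1 = j + 2 by ring, hbb] at e1
        linear_combination phi z c (N+1) * VV b (z * phi z c (N+1)) (j+1) * e1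

theorem partC : PartC := by
  intro b c hb hc N j
  set b' : ℕ → ℂ := fun n => match n with
    | 0 => 1
    | (n+1) => b n with hb'
  have hb'pm : PM b' := by
    intro n
    cases n with
    | zero => left; rfl
    | succ n => exact hb n
  refine ⟨sh 1 (BBb b' c N (∏ i ∈ range N, c i)), (BBb_pm hb'pm hc N (prod_pm hc N)).sh 1, ?_⟩
  intro z
  have h := special_gen z b c b' hb'pm (fun n => rfl) hc N (j+1)
  have hpos : 0 < (N+2)*(j+1) := Nat.mul_pos (by omega) (by omega)
  obtain ⟨t, ht⟩ : ∃ t, (N+2)*(j+1) = t + 1 := ⟨(N+2)*(j+1) - 1, by omega⟩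
  rw [ht] at h ⊢
  rw [Nat.add_sub_cancel]
  simp only [xs, VV] at h
  exact h

end Pool.Agent.W343.FZH
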