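import Pool.Agent.W343.FZH.Core

/-! The final statement from the parts. -/

set_option autoImplicit false

open Metric Filter Topology Set

namespace Pool.Agent.W343.FZH

open Pool.Agent.W681.FZ

/-- The Feinberg-Zee spectrum, with spectra of operators on `lp`. -/
def SA : Set ℂ := {z : ℂ | ∃ c : ℤ → ℂ, (∀ n, c n = 1 ∨ c n = -1) ∧
  ∃ T : lp (fun _ : ℤ => ℂ) 2 →L[ℂ] lp (fun _ : ℤ => ℂ) 2,
    (∀ (x : lp (fun _ : ℤ => ℂ) 2) (n : ℤ), (T x) n = x (n + 1) + c n * x (n - 1)) ∧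
    z ∈ spectrum ℂ T}

/-- The union of the spectra of the periodic operators. -/
def SP : Set ℂ := {z : ℂ | ∃ c : ℤ → ℂ, (∀ n, c n = 1 ∨ c n = -1) ∧
  (∃ p : ℕ, 0 < p ∧ ∀ n : ℤ, c (n + (p : ℤ)) = c n) ∧
  ∃ T : lp (fun _ : ℤ => ℂ) 2 →L[ℂ] lp (fun _ : ℤ => ℂ) 2,
    (∀ (x : lp (fun _ : ℤ => ℂ) 2) (n : ℤ), (T x) n = x (n + 1) + c n * x (n - 1)) ∧
    z ∈ spectrum ℂ T}

lemma shift_back (b : ℤ → ℂ) : (fun n : ℤ => (fun m : ℤ => b (m - 1)) (n + 1)) = b := by
  funext n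
  show b (n + 1 - 1) = b n
  rw [add_sub_cancel_right]

lemma SA_eq (hB : PartB) : SA = Sig := by
  ext z
  constructor
  · rintro ⟨c, hc, hT⟩
    exact ⟨fun n => c (n + 1), fun n => hc _, (hB z c hc).1 hT⟩
  · rintro ⟨b, hb, hbad⟩
    refine ⟨fun m => b (m - 1), fun n => hb _, (hB z _ (fun n => hb _)).2 ?_⟩
    rw [shift_back]
    exact hbad

lemma SP_eq (hB : PartB) : SP = Per := by
  ext z
  constructor
  · rintro ⟨c, hc, ⟨p, hp, hper⟩, hT⟩
    refine ⟨fun n => c (n + 1), fun n => hc _, ⟨p, hp, fun n => ?_⟩, (hB z c hc).1 hT⟩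
    show c (n + p + 1) = c (n + 1)
    rw [← hper (n + 1)]
    congr 1
    ring
  · rintro ⟨b, hb, ⟨p, hp, hper⟩, hbad⟩
    refine ⟨fun m => b (m - 1), fun n => hb _, ⟨p, hp, fun n => ?_⟩,
      (hB z _ (fun n => hb _)).2 ?_⟩
    · show b (n + p - 1) = b (n - 1)
      rw [← hper (n - 1)]
      congr 1
      ring
    · rw [shift_back]
      exact hbad

theorem dichotomy (hB : PartB) (hD : PartD) (hE : PartE) (z : ℂ) :
    (connectedComponentIn (closure SP)ᶜ z ⊆ SA ∩ closedBall 0 2) ∨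
      Disjoint (connectedComponentIn (closure SP)ᶜ z) SA := by
  rw [SA_eq hB, SP_eq hB]
  by_cases h : ∃ w ∈ connectedComponentIn (closure Per)ᶜ z, w ∉ Sig
  · right
    have h1 := alt partC hD hE (connectedComponentIn (closure Per)ᶜ z)
      isPreconnected_connectedComponentIn
      (fun w hw => connectedComponentIn_subset _ _ hw) h
    exact Set.disjoint_left.2 h1
  · left
    push Not at h
    intro w hw
    refine ⟨h w hw, ?_⟩
    rw [mem_closedBall, dist_zero_right]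
    by_contra h2
    push Not at h2
    exact large w h2 (h w hw)

end Pool.Agent.W343.FZH
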