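import Pool.Agent.W681.FZ12

/-! Project FZH (helper343): the periodic part of the Feinberg-Zee spectrum (MP_1b8d20_an).
Statements of the parts. `phi z b n` is the characteristic polynomial of the `n` by `n` window with
links `b 0, …, b (n-2)`; `PM b` says that all links are `1` or `-1`; `Bij z b` says that `A_b - z`
is bijective on `ℓ²(ℤ)`. -/

set_option autoImplicit false

namespace Pool.Agent.W343.FZH

open Pool.Agent.W681.FZ

/-- `z` is an eigenvalue of a finite window. -/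
def HasZero (z : ℂ) : Prop := ∃ (b : ℕ → ℂ) (N : ℕ), PM b ∧ phi z b (N+1) = 0

/-- Part E: eigenvalues of finite windows are in the spectra of periodic operators. -/
def PartE : Prop := ∀ z : ℂ, HasZero z → ∃ b : ℤ → ℂ, (∀ n, b n = 1 ∨ b n = -1) ∧
  (∃ p : ℕ, 0 < p ∧ ∀ n : ℤ, b (n + (p : ℤ)) = b n) ∧ ¬ Bij z b

/-- Part C: composition. -/
def PartC : Prop := ∀ (b c : ℕ → ℂ), PM b → PM c → ∀ N j : ℕ, ∃ B : ℕ → ℂ, PM B ∧
  ∀ z : ℂ, phi z B ((N+2)*(j+1) - 1) = phi z c (N+1) * phi (z * phi z c (N+1)) b j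

/-- Part D: eigenvalues of finite windows are dense in the unit disc (from Part C). -/
def PartD : Prop := ∀ μ : ℂ, ‖μ‖ < 1 → ∀ ε : ℝ, 0 < ε → ∃ w : ℂ, ‖w - μ‖ < ε ∧ HasZero w

/-- Part B: the spectrum of the operator on `lp`. -/
def PartB : Prop := ∀ (z : ℂ) (c : ℤ → ℂ), (∀ n, c n = 1 ∨ c n = -1) →
  ((∃ T : lp (fun _ : ℤ => ℂ) 2 →L[ℂ] lp (fun _ : ℤ => ℂ) 2,
      (∀ (x : lp (fun _ : ℤ => ℂ) 2) (n : ℤ), (T x) n = x (n + 1) + c n * x (n - 1)) ∧
      z ∈ spectrum ℂ T) ↔ ¬ Bij z (fun n => c (n + 1)))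

end Pool.Agent.W343.FZH
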